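import Mathlib

set_option autoImplicit false
set_option maxHeartbeats 400000

/-!
# Groups on which every Hausdorff topology with continuous shifts and continuous maps
`x ↦ x a x⁻¹` is discrete
-/

namespace Pool.Agent.H535Z.Top

open Topology

section Abstract

variable {G : Type} [Group G]

/-- nested conjugation -/
def nest (σ : G) : ℕ → G → G
  | 0, x => x * σ * x⁻¹
  | k + 1, x => nest σ k x * σ * (nest σ k x)⁻¹

theorem nest_sq {σ : G} (hσ : σ * σ = 1) (k : ℕ) (x : G) : nest σ k x * nest σ k x = 1 := by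
  cases k with
  | zero =>
    simp only [nest]
    calc x * σ * x⁻¹ * (x * σ * x⁻¹) = x * (σ * σ) * x⁻¹ := by group
      _ = 1 := by rw [hσ]; group
  | succ k =>
    simp only [nest]
    calc nest σ k x * σ * (nest σ k x)⁻¹ * (nest σ k x * σ * (nest σ k x)⁻¹)
        = nest σ k x * (σ * σ) * (nest σ k x)⁻¹ := by group
      _ = 1 := by rw [hσ]; group

theorem nest_mul {σ : G} (hσ : σ * σ = 1) (k : ℕ) (x : G) :
    nest σ k x * σ = (x * σ * x⁻¹ * σ) ^ 2 ^ k := by
  induction k with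
  | zero => simp [nest]
  | succ k ih =>
    have h : (nest σ k x)⁻¹ = nest σ k x := inv_eq_of_mul_eq_one_right (nest_sq hσ k x)
    rw [pow_succ, pow_mul, ← ih]
    simp only [nest]
    rw [h, sq]
    simp only [mul_assoc]

theorem discrete_of_involution (σ : G) (hσ : σ * σ = 1) (j n : ℕ) (hn : 2 ^ j = n + 1)
    (hA : (Set.range fun x : G => (x * σ * x⁻¹ * σ) ^ n).Finite)
    (hB : {y : G | (∃ x : G, y = x * σ * x⁻¹) ∧ (y * σ) ^ n = 1}.Finite)
    (g : G) (hC : {x : G | x * σ * x⁻¹ = σ ∧ (g⁻¹ * x * g) * σ * (g⁻¹ * x * g)⁻¹ = σ}.Finite)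
    (t : TopologicalSpace G) (ht : T2Space G)
    (hr : ∀ a : G, Continuous fun x : G => x * a) (hl : ∀ a : G, Continuous fun x : G => a * x)
    (hk : ∀ a : G, Continuous fun x : G => x * a * x⁻¹) : t = ⊥ := by
  have hnest : ∀ k, Continuous (nest σ k) := by
    intro k
    induction k with
    | zero => exact hk σ
    | succ k ih => exact (hk σ).comp ih
  have hE : ∀ z : G, IsClosed {x : G | (x * σ * x⁻¹ * σ) ^ n = z} := by
    intro z
    have h1 : IsClosed {x : G | nest σ j x * σ = z * (x * σ * x⁻¹ * σ)} :=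
      isClosed_eq ((hr σ).comp (hnest j)) ((hl z).comp ((hr σ).comp (hk σ)))
    convert h1 using 2
    ext x
    rw [nest_mul hσ, hn, pow_succ]
    exact (mul_left_inj _).symm
  have hY : ∀ y : G, IsClosed {x : G | x * σ * x⁻¹ = y} := fun y =>
    isClosed_eq (hk σ) continuous_const
  have hopen : IsOpen {x : G | x * σ * x⁻¹ = σ} := by
    have c1 : IsClosed (⋃ z ∈ (Set.range fun x : G => (x * σ * x⁻¹ * σ) ^ n) \ {1},
        {x : G | (x * σ * x⁻¹ * σ) ^ n = z}) :=
      (hA.subset Set.diff_subset).isClosed_biUnion fun z _ => hE z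
    have c2 : IsClosed (⋃ y ∈ {y : G | (∃ x : G, y = x * σ * x⁻¹) ∧ (y * σ) ^ n = 1} \ {σ},
        {x : G | x * σ * x⁻¹ = y}) :=
      (hB.subset Set.diff_subset).isClosed_biUnion fun y _ => hY y
    have := (c1.union c2).isOpen_compl
    convert this using 1
    ext x
    simp only [Set.mem_setOf_eq, Set.mem_compl_iff, Set.mem_union, Set.mem_iUnion, Set.mem_diff,
      Set.mem_range, Set.mem_singleton_iff, exists_prop, not_or, not_exists, not_and]
    constructor
    · intro hx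
      refine ⟨?_, ?_⟩
      · intro z hz h
        apply hz.2
        rw [← h, hx, hσ, one_pow]
      · intro y hy h
        exact hy.2 (h.symm.trans hx)
    · rintro ⟨h1, h2⟩
      by_contra hx
      have e : (x * σ * x⁻¹ * σ) ^ n = 1 := by
        by_contra he
        exact h1 _ ⟨⟨x, rfl⟩, he⟩ rfl
      exact h2 _ ⟨⟨⟨x, rfl⟩, e⟩, hx⟩ rfl
  have hopen2 : IsOpen {x : G | (g⁻¹ * x * g) * σ * (g⁻¹ * x * g)⁻¹ = σ} :=
    hopen.preimage ((hr g).comp (hl g⁻¹))
  have hone : IsOpen ({1} : Set G) := by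
    have c3 := ((hC.subset (Set.diff_subset (t := {1}))).isClosed).isOpen_compl
    have := (hopen.inter hopen2).inter c3
    convert this using 1
    ext x
    simp only [Set.mem_singleton_iff, Set.mem_inter_iff, Set.mem_setOf_eq, Set.mem_compl_iff,
      Set.mem_diff, not_and, not_not]
    constructor
    · rintro rfl
      simp
    · rintro ⟨h1, h2⟩
      exact h2 h1
  apply eq_bot_of_singletons_open
  intro a
  have := hone.preimage (hl a⁻¹)
  convert this using 1
  ext x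
  simp [inv_mul_eq_one, eq_comm]

end Abstract

/-- the wreath product of `O` by the group of order two -/
@[ext] structure W (O : Type) where
  a : O
  b : O
  s : Bool

namespace W

variable {O : Type} [Group O]

instance : Mul (W O) := ⟨fun x y =>
  if x.s then ⟨x.a * y.b, x.b * y.a, !y.s⟩ else ⟨x.a * y.a, x.b * y.b, y.s⟩⟩

instance : One (W O) := ⟨⟨1, 1, false⟩⟩

instance : Inv (W O) := ⟨fun x => if x.s then ⟨x.b⁻¹, x.a⁻¹, true⟩ else ⟨x.a⁻¹, x.b⁻¹, false⟩⟩

theorem mul_t (a b a' b' : O) (s : Bool) :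
    (⟨a, b, true⟩ : W O) * ⟨a', b', s⟩ = ⟨a * b', b * a', !s⟩ := rfl

theorem mul_f (a b a' b' : O) (s : Bool) :
    (⟨a, b, false⟩ : W O) * ⟨a', b', s⟩ = ⟨a * a', b * b', s⟩ := rfl

theorem inv_t (a b : O) : (⟨a, b, true⟩ : W O)⁻¹ = ⟨b⁻¹, a⁻¹, true⟩ := rfl

theorem inv_f (a b : O) : (⟨a, b, false⟩ : W O)⁻¹ = ⟨a⁻¹, b⁻¹, false⟩ := rfl

theorem one_def : (1 : W O) = ⟨1, 1, false⟩ := rfl

instance : Group (W O) := Group.ofLeftAxioms
  (by
    rintro ⟨a, b, _ | _⟩ ⟨a', b', _ | _⟩ ⟨a'', b'', _ | _⟩ <;>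
      simp [mul_t, mul_f, mul_assoc])
  (by
    rintro ⟨a, b, s⟩
    simp [one_def, mul_f])
  (by
    rintro ⟨a, b, _ | _⟩ <;> simp [inv_t, inv_f, mul_t, mul_f, one_def])

theorem pow_f (a b : O) (n : ℕ) : (⟨a, b, false⟩ : W O) ^ n = ⟨a ^ n, b ^ n, false⟩ := by
  induction n with
  | zero => simp [one_def]
  | succ n ih => rw [pow_succ, ih, mul_f, pow_succ, pow_succ]

/-- the swap -/
def σ : W O := ⟨1, 1, true⟩

theorem conj_σ (x : W O) : ∃ g : O, x * σ * x⁻¹ = ⟨g, g⁻¹, true⟩ := by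
  rcases x with ⟨a, b, _ | _⟩
  · exact ⟨a * b⁻¹, by simp [σ, inv_f, mul_t, mul_f]⟩
  · exact ⟨a * b⁻¹, by simp [σ, inv_t, mul_t, mul_f]⟩

theorem discrete (j n : ℕ) (hn : 2 ^ j = n + 1) (h1 : (Set.range fun g : O => g ^ n).Finite)
    (h2 : {g : O | g ^ n = 1}.Finite) (h : O) (h3 : {g : O | g * h * g⁻¹ = h}.Finite)
    (t : TopologicalSpace (W O)) (ht : T2Space (W O))
    (hr : ∀ a : W O, Continuous fun x : W O => x * a)
    (hl : ∀ a : W O, Continuous fun x : W O => a * x)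
    (hk : ∀ a : W O, Continuous fun x : W O => x * a * x⁻¹) : t = ⊥ := by
  have hm : ∀ g : O, (⟨g, g⁻¹, true⟩ : W O) * σ = ⟨g, g⁻¹, false⟩ := by
    intro g
    simp [σ, mul_t]
  refine discrete_of_involution σ (by simp [σ, mul_t, one_def]) j n hn ?_ ?_ ⟨h, 1, false⟩ ?_
    t ht hr hl hk
  · refine (h1.image fun z : O => (⟨z, z⁻¹, false⟩ : W O)).subset ?_
    rintro _ ⟨x, rfl⟩
    obtain ⟨g, hg⟩ := conj_σ x
    refine ⟨g ^ n, ⟨g, rfl⟩, ?_⟩
    simp only [hg, hm, pow_f, inv_pow]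
  · refine (h2.image fun z : O => (⟨z, z⁻¹, true⟩ : W O)).subset ?_
    rintro _ ⟨⟨x, rfl⟩, hx⟩
    obtain ⟨g, hg⟩ := conj_σ x
    rw [hg, hm, pow_f, one_def] at hx
    exact ⟨g, congrArg W.a hx, hg.symm⟩
  · have h4 : {g : O | g * h⁻¹ * g⁻¹ = h}.Finite := by
      by_cases he : ∃ g₀ : O, g₀ * h⁻¹ * g₀⁻¹ = h
      · obtain ⟨g₀, hg₀⟩ := he
        refine (h3.image fun u => u * g₀).subset ?_
        intro g hg
        refine ⟨g * g₀⁻¹, ?_, by simp⟩
        simp only [Set.mem_setOf_eq] at hg ⊢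
        calc g * g₀⁻¹ * h * (g * g₀⁻¹)⁻¹ = g * g₀⁻¹ * (g₀ * h⁻¹ * g₀⁻¹) * (g * g₀⁻¹)⁻¹ := by
              rw [hg₀]
          _ = g * h⁻¹ * g⁻¹ := by group
          _ = h := hg
      · convert Set.finite_empty
        ext g
        simp only [Set.mem_setOf_eq, Set.mem_empty_iff_false, iff_false]
        exact fun hg => he ⟨g, hg⟩
    refine ((h3.image fun z : O => (⟨z, z, false⟩ : W O)).union
      (h4.image fun z : O => (⟨z, z, true⟩ : W O))).subset ?_
    rintro ⟨a, b, _ | _⟩ ⟨hx, hy⟩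
    · left
      simp only [σ, inv_f, mul_t, mul_f, W.mk.injEq] at hx hy
      have e : a = b := by simpa [mul_inv_eq_one] using hx.1
      subst e
      refine ⟨a, ?_, rfl⟩
      have := hy.1
      simp only [Set.mem_setOf_eq]
      calc a * h * a⁻¹ = h * (h⁻¹ * a * h * 1 * (1⁻¹ * a * 1)⁻¹) := by group
        _ = h := by rw [this, mul_one]
    · right
      simp only [σ, inv_f, inv_t, mul_t, mul_f, W.mk.injEq, Bool.not_false, Bool.not_true]
        at hx hy
      have e : a = b := by simpa [mul_inv_eq_one] using hx.1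
      subst e
      refine ⟨a, ?_, rfl⟩
      have := hy.1
      simp only [Set.mem_setOf_eq]
      calc a * h⁻¹ * a⁻¹ = h * (h⁻¹ * a * 1 * 1 * (1⁻¹ * a * h)⁻¹) := by group
        _ = h := by rw [this, mul_one]

instance [Countable O] : Countable (W O) :=
  Function.Injective.countable (f := fun x : W O => (x.a, x.b, x.s)) (by
    rintro ⟨a, b, s⟩ ⟨a', b', s'⟩ h
    simp only [Prod.mk.injEq] at h
    rw [h.1, h.2.1, h.2.2])

instance [Infinite O] : Infinite (W O) :=
  Infinite.of_injective (fun a : O => (⟨a, a, false⟩ : W O)) fun _ _ h => congrArg W.a h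

end W

end Pool.Agent.H535Z.Top
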