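import Pool.Agent.H59Z.NA.TappO
import Pool.Agent.H535Z.Top.Wr

set_option autoImplicit false
set_option maxHeartbeats 400000

/-!
# From a group of Adian type to a group without non-discrete semi-topological topologies
-/

namespace Pool.Agent.H535Z.Top

open Pool.Agent.H59Z.NA

theorem bu_infinite {n : ℕ} (hn : 1 < n) : Infinite (Bu n) := by
  refine Infinite.of_injective (TappO.x n) ?_
  intro i j h
  by_contra hij
  rcases lt_or_gt_of_ne hij with hlt | hlt
  · have h1 := TappO.r_x n j i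
    have h2 := TappO.r_x n j j
    rw [if_pos hlt] at h1
    rw [if_neg (lt_irrefl _), ← h, h1] at h2
    exact TappO.x_ne hn i h2
  · have h1 := TappO.r_x n i j
    have h2 := TappO.r_x n i i
    rw [if_pos hlt] at h1
    rw [if_neg (lt_irrefl _), h, h1] at h2
    exact TappO.x_ne hn j h2

theorem exists_O (n : ℕ) (hn : 1 < n) (hA : Adian n) :
    ∃ (O : Type) (_ : Group O), Countable O ∧ Infinite O ∧
      (Set.range fun g : O => g ^ n).Finite ∧ {g : O | g ^ n = 1}.Finite ∧
      ∃ h : O, {g : O | g * h * g⁻¹ = h}.Finite := by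
  obtain ⟨G, _, c, ρ, hρ, hker, hc, hc1, htf⟩ := hA
  haveI : (Subgroup.zpowers (c ^ n)).Normal := by
    constructor
    rintro _ ⟨k, rfl⟩ g
    have : Commute ((c ^ n) ^ k) g := ((hc g).pow_left n).zpow_left k
    refine ⟨k, ?_⟩
    simp only
    rw [← this.eq, mul_inv_cancel_right]
  let π : G →* G ⧸ Subgroup.zpowers (c ^ n) := QuotientGroup.mk' _
  have hπ : Function.Surjective π := QuotientGroup.mk'_surjective _
  have hπc : π c ^ n = 1 := by
    rw [← map_pow]
    exact (QuotientGroup.eq_one_iff _).2 (Subgroup.mem_zpowers _)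
  have hfin : (Subgroup.zpowers (π c) : Set (G ⧸ Subgroup.zpowers (c ^ n))).Finite := by
    rw [finite_zpowers, isOfFinOrder_iff_pow_eq_one]
    exact ⟨n, by omega, hπc⟩
  have he : ∀ g : G, ∃ k : ℤ, c ^ k = g ^ n := fun g =>
    (hker (g ^ n)).1 (by rw [map_pow, TappO.bu_pow])
  have htz : ∀ (g : G) (k : ℤ), k ≠ 0 → g ^ k = 1 → g = 1 := by
    intro g k hk h
    apply htf g k.natAbs (Int.natAbs_pos.2 hk)
    rcases Int.natAbs_eq k with e | e
    · rw [← zpow_natCast, ← e, h]
    · rw [← inv_inj, ← zpow_natCast, ← zpow_neg, ← e, h, inv_one]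
  have h1 : ∀ a : G ⧸ Subgroup.zpowers (c ^ n), a ^ n ∈ Subgroup.zpowers (π c) := by
    intro a
    obtain ⟨g, rfl⟩ := hπ a
    obtain ⟨k, hk⟩ := he g
    refine ⟨k, ?_⟩
    simp only
    rw [← map_zpow, hk, map_pow]
  have h2 : ∀ a : G ⧸ Subgroup.zpowers (c ^ n), a ^ n = 1 → a ∈ Subgroup.zpowers (π c) := by
    intro a ha
    obtain ⟨g, rfl⟩ := hπ a
    rw [← map_pow] at ha
    obtain ⟨k, hk⟩ := (QuotientGroup.eq_one_iff _).1 ha
    simp only at hk
    have hcm : Commute g (c ^ k)⁻¹ := ((hc g).zpow_left k).symm.inv_right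
    have : (g * (c ^ k)⁻¹) ^ n = 1 := by
      rw [hcm.mul_pow, ← hk, inv_pow, ← zpow_natCast c n, ← zpow_natCast (c ^ k) n, ← zpow_mul,
        ← zpow_mul, mul_comm, mul_inv_cancel]
    have := htf _ n (by omega) this
    refine ⟨k, ?_⟩
    simp only
    rw [← map_zpow, mul_inv_eq_one.1 this]
  haveI : Infinite (Bu n) := bu_infinite hn
  let ρ0 : G ⧸ Subgroup.zpowers (c ^ n) →* Bu n := QuotientGroup.lift _ ρ (by
    rintro _ ⟨k, rfl⟩
    exact (hker _).2 (Subgroup.zpow_mem _ (Subgroup.pow_mem _ (Subgroup.mem_zpowers c) n) k))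
  have hρ0 : Function.Surjective ρ0 := by
    intro b
    obtain ⟨g, rfl⟩ := hρ b
    exact ⟨π g, rfl⟩
  have hcount : Countable G := by
    obtain ⟨s, hs⟩ := hρ.hasRightInverse
    have : Countable (FreeGroup ℕ) := (FreeGroup.toWord_injective (α := ℕ)).countable
    have : Countable (Bu n) := QuotientGroup.mk_surjective.countable
    refine Function.Surjective.countable (f := fun p : ℤ × Bu n => c ^ p.1 * s p.2) ?_
    intro g
    obtain ⟨k, hk⟩ := (hker (g * (s (ρ g))⁻¹)).1 (by rw [map_mul, map_inv, hs, mul_inv_cancel])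
    refine ⟨(k, ρ g), ?_⟩
    simp only at hk ⊢
    rw [hk, inv_mul_cancel_right]
  -- an element with the least positive exponent
  have hex : ∃ d : ℕ, 0 < d ∧ ∃ h : G, c ^ d = h ^ n := ⟨n, by omega, c, rfl⟩
  classical
  obtain ⟨hd, h, hh⟩ := Nat.find_spec hex
  set d := Nat.find hex with hdd
  have hcent : ∀ g : G, Commute g h → g ∈ Subgroup.zpowers h := by
    intro g hg
    obtain ⟨k, hk⟩ := he g
    have hd' : (d : ℤ) ≠ 0 := by omega
    have e1 : c ^ (k % d) = (g * h ^ (-(k / d))) ^ n := by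
      rw [(hg.zpow_right _).mul_pow, ← hk, ← zpow_natCast (h ^ _), ← zpow_mul, mul_comm (-_),
        zpow_mul, zpow_natCast, ← hh, ← zpow_natCast c d, ← zpow_mul, ← zpow_add]
      congr 1
      have := Int.emod_add_mul_ediv k d
      linarith
    have h0 : 0 ≤ k % d := Int.emod_nonneg _ hd'
    have hlt : k % d < d := Int.emod_lt_of_pos _ (by omega)
    have hz : k % d = 0 := by
      by_contra hne
      have := Nat.find_min hex (m := (k % d).toNat) (by omega)
      apply this
      refine ⟨by omega, g * h ^ (-(k / d)), ?_⟩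
      rw [← e1, ← zpow_natCast, Int.toNat_of_nonneg h0]
    rw [hz, zpow_zero] at e1
    have := htf _ n (by omega) e1.symm
    refine ⟨k / d, ?_⟩
    simp only
    rw [zpow_neg, mul_inv_eq_one] at this
    exact this.symm
  refine ⟨G ⧸ Subgroup.zpowers (c ^ n), inferInstance, hπ.countable,
    Infinite.of_surjective _ hρ0, hfin.subset ?_, hfin.subset fun a ha => h2 a ha, π h, ?_⟩
  · rintro _ ⟨a, rfl⟩
    exact h1 a
  · have hf2 : (Subgroup.zpowers (π h) : Set (G ⧸ Subgroup.zpowers (c ^ n))).Finite := by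
      rw [finite_zpowers, isOfFinOrder_iff_pow_eq_one]
      refine ⟨n * n, by positivity, ?_⟩
      rw [pow_mul, ← map_pow, ← hh, map_pow, ← pow_mul, mul_comm, pow_mul, hπc, one_pow]
    refine hf2.subset ?_
    intro a ha
    obtain ⟨g, rfl⟩ := hπ a
    have ha' : π (g * h * g⁻¹ * h⁻¹) = 1 := by
      simp only [map_mul, map_inv]
      exact mul_inv_eq_one.2 ha
    obtain ⟨k, hk⟩ := (QuotientGroup.eq_one_iff _).1 ha'
    simp only at hk
    have hz : Commute ((c ^ n) ^ k) h := ((hc h).pow_left n).zpow_left k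
    have e1 : g * h * g⁻¹ = (c ^ n) ^ k * h := by rw [hk, inv_mul_cancel_right]
    have e2 : ((c ^ n) ^ k) ^ n * h ^ n = h ^ n := by
      rw [← hz.mul_pow, ← e1, conj_pow, ← hh, ← ((hc g).pow_left d).eq, mul_inv_cancel_right]
    have e3 : (c ^ n) ^ k = 1 := htf _ n (by omega) (mul_eq_right.1 e2)
    rw [e3, one_mul, mul_inv_eq_iff_eq_mul] at e1
    obtain ⟨m, hm⟩ := hcent g e1
    refine ⟨m, ?_⟩
    simp only at hm ⊢
    rw [← map_zpow, hm]

theorem exists_group (hA : Adian (2 ^ 107 - 1)) :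
    ∃ (G : Type) (_ : Group G), Countable G ∧ Infinite G ∧
      ∀ t : TopologicalSpace G, T2Space G →
        (∀ a : G, Continuous fun x : G => x * a) → (∀ a : G, Continuous fun x : G => a * x) →
        (∀ a : G, Continuous fun x : G => x * a * x⁻¹) → t = ⊥ := by
  obtain ⟨O, _, hc, hi, h1, h2, h, h3⟩ := exists_O _ (by norm_num) hA
  exact ⟨W O, inferInstance, inferInstance, inferInstance, fun t ht hr hl hk =>
    W.discrete 107 (2 ^ 107 - 1) (by norm_num) h1 h2 h h3 t ht hr hl hk⟩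

end Pool.Agent.H535Z.Top
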