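import Pool.Agent.H59Z.NA.Tacyl
import Pool.Agent.H59Z.NA.Tacylq
import Pool.Agent.H59Z.NA.Tadian
import Pool.Agent.H59Z.NA.Taxis
import Pool.Agent.H59Z.NA.Tbase
import Pool.Agent.H59Z.NA.Tbow
import Pool.Agent.H59Z.NA.Tcomm
import Pool.Agent.H59Z.NA.Tcyc
import Pool.Agent.H59Z.NA.Telec
import Pool.Agent.H59Z.NA.Tell
import Pool.Agent.H59Z.NA.Text
import Pool.Agent.H59Z.NA.Tfp
import Pool.Agent.H59Z.NA.Thyp
import Pool.Agent.H59Z.NA.Tlfp
import Pool.Agent.H59Z.NA.Tlines
import Pool.Agent.H59Z.NA.Tlox
import Pool.Agent.H59Z.NA.Tloxq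
import Pool.Agent.H59Z.NA.Tmd
import Pool.Agent.H59Z.NA.Tpos
import Pool.Agent.H59Z.NA.Tquo
import Pool.Agent.H59Z.NA.Tstep
import Pool.Agent.H59Z.NA.Ttau
import Pool.Agent.H59Z.NA.Ttri
import Pool.Agent.H59Z.NA.Twind

set_option autoImplicit false

/-! # The steps of the small cancellation machine, without hypotheses -/

namespace Pool.Agent.H535Z.Top.All

open Pool.Agent.H59Z.NA

theorem tau : S_tau := thm_tau
theorem cyc : S_cyc := thm_cyc tau
theorem lox : S_lox := thm_lox tau cyc
theorem hyp : S_hyp := thm_hyp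
theorem comm : S_comm := thm_comm
theorem acyl : S_acyl := thm_acyl comm
theorem axis : S_axis := thm_axis tau
theorem lines : S_lines := thm_lines tau hyp acyl axis
theorem bow : S_bow := thm_bow
theorem elec : S_elec := thm_elec hyp bow
theorem wind : S_wind := thm_wind
theorem quo : S_quo := thm_quo hyp
theorem pos : S_pos := thm_pos
theorem fp : S_fp := thm_fp pos
theorem md : S_md := thm_md hyp pos
theorem lfp : S_lfp := thm_lfp
theorem ell : S_ell := thm_ell pos fp lfp
theorem tri : S_tri := thm_tri tau pos fp lfp md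
theorem acylq : S_acylq := thm_acylq pos md
theorem loxq : S_loxq := thm_loxq tau pos md
theorem step : S_step := thm_step tau acyl lox pos ell tri acylq loxq
theorem base : S_base := thm_base tau comm lox
theorem ext : S_ext := thm_ext tau lines elec wind quo step
theorem adian : S_adian := thm_adian tau base ext

end Pool.Agent.H535Z.Top.All
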