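import Pool.Agent.H535Z.Top.Ad

set_option autoImplicit false

namespace Pool.Agent.H535Z.Top

open Pool.Agent.H59Z.NA

theorem final (hA : Adian (2 ^ 107 - 1)) :
    ∃ (G : Type) (_ : Group G), Countable G ∧ Infinite G ∧
      ∀ t : TopologicalSpace G, T2Space G →
        (((∀ a : G, Continuous fun x : G => x * a⁻¹) ∧ ∀ a : G, Continuous fun y : G => a * y⁻¹) ∨
          ((∀ a : G, Continuous fun x : G => x * a) ∧ ∀ a : G, Continuous fun y : G => a * y)) →
        (∀ a : G, Continuous fun x : G => x * a * x⁻¹ * a⁻¹) → t = ⊥ := by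
  obtain ⟨G, _, hc, hi, H⟩ := exists_group hA
  refine ⟨G, inferInstance, hc, hi, fun t ht hs hk => ?_⟩
  have hs' : (∀ a : G, Continuous fun x : G => x * a) ∧ ∀ a : G, Continuous fun y : G => a * y := by
    rcases hs with ⟨h1, h2⟩ | hs
    · refine ⟨fun a => by simpa using h1 a⁻¹, fun a => ?_⟩
      have := (h2 a).comp (h2 1)
      simpa [Function.comp_def] using this
    · exact hs
  refine H t ht hs'.1 hs'.2 fun a => ?_
  have := (hs'.1 a).comp (hk a)
  simpa [Function.comp_def] using this

end Pool.Agent.H535Z.Top
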